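import Pool.Agent.Lib.MP_e7c4c5_co.Words
import Pool.Agent.Lib.MP_e7c4c5_co.Geom

set_option autoImplicit false

namespace Pool.Agent.Results.MP_e7c4c5_co.Barrier

open Pool.Agent.Lib.MP_e7c4c5_co

/-- A small crossing number of every subgraph does not bound the nonrepetitive chromatic
number. -/
theorem result (M c : ℕ) :
    ∃ (V : Type) (_ : Fintype V) (G : SimpleGraph V),
      (∀ H : SimpleGraph V, H ≤ G → ∃ p : V → ℝ × ℝ, IsStraightDrawing H p ∧
        M * (crossings H p).ncard ≤ H.edgeSet.ncard) ∧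
      ¬ ∃ φ : V → Fin c, IsNonrepetitive G φ := by
  let n := 2 * (2 * (c + 1) ^ 2)
  have hn : 1 ≤ n := by
    have : 0 < (c + 1) ^ 2 := by positivity
    omega
  let R := M * (n * n * n) ^ 2
  exact ⟨(tower₂ n R ((c + 1) * (2 * R + 1))).V, inferInstance,
    (tower₂ n R ((c + 1) * (2 * R + 1))).G, drawing_of_crInv (crInv_tower₂ hn le_rfl _),
    not_nonrepetitive c R⟩

end Pool.Agent.Results.MP_e7c4c5_co.Barrier
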