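import Pool.Agent.Lib.MP_e7c4c5_co.Lt.Main

set_option autoImplicit false

namespace Pool.Agent.Results.MP_e7c4c5_co.LayeredTreewidth

/-- Graphs of layered treewidth one have unbounded nonrepetitive chromatic number. The map `l` is
the layering, and the tree `T` with the bags `B` is a tree decomposition in which every bag has at
most one vertex in each layer. -/
theorem result (c : ℕ) :
    ∃ (V : Type) (_ : Fintype V) (G : SimpleGraph V) (l : V → ℤ) (ι : Type) (_ : Fintype ι)
      (T : SimpleGraph ι) (B : ι → Set V),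
      (∀ u v, G.Adj u v → |l u - l v| = 1) ∧ T.IsTree ∧
      (∀ u v, G.Adj u v → ∃ i, u ∈ B i ∧ v ∈ B i) ∧
      (∀ v, (T.induce {i | v ∈ B i}).Connected) ∧ (∀ i, Set.InjOn l (B i)) ∧
      ¬ ∃ φ : V → Fin c, ∀ (a b : V) (P : G.Walk a b), P.IsPath →
        ∀ n : ℕ, 0 < n → P.support.length = 2 * n →
          (P.support.take n).map φ ≠ (P.support.drop n).map φ :=
  Pool.Agent.Lib.MP_e7c4c5_co.Lt.main c

end Pool.Agent.Results.MP_e7c4c5_co.LayeredTreewidth
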