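import Pool.Agent.Lib.MP_e7c4c5_co.Out.Main
import Pool.Agent.Lib.MP_e7c4c5_co.Sub.Main

set_option autoImplicit false

namespace Pool.Agent.Results.MP_e7c4c5_co.Outer

open Pool.Agent.Lib.MP_e7c4c5_co

/-- Outer `k`-gap-planar graphs (vertices in convex position, every crossing charged to one of
its two edges, at most `k` to each edge) have nonrepetitive chromatic number at most `f k`. -/
theorem result :
    ∃ f : ℕ → ℕ, ∀ (k : ℕ) (V : Type) [Fintype V] [LinearOrder V] (G : SimpleGraph V)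
      (ch : Sym2 V → Finset (Sym2 V)), (∀ e, (ch e).card ≤ k) →
      (∀ a b c d, G.Adj a c → G.Adj b d → a < b → b < c → c < d →
        s(b, d) ∈ ch s(a, c) ∨ s(a, c) ∈ ch s(b, d)) →
      ∃ c : V → Fin (f k), ∀ (a b : V) (P : G.Walk a b), P.IsPath →
        ∀ n : ℕ, 0 < n → P.support.length = 2 * n →
          (P.support.take n).map c ≠ (P.support.drop n).map c := by
  choose f hf using Out.main_seq
  refine ⟨f, fun k V _ _ G ch h1 h2 => ?_⟩
  let e := (monoEquivOfFin V rfl).symm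
  have lt : ∀ a b : V, (e a : ℕ) < e b → a < b := fun a b h => e.lt_iff_lt.1 h
  obtain ⟨c, hc⟩ := hf k V G (fun v => e v) ch ⟨fun a b h => e.injective (Fin.ext h), h1, by
    rintro _ he _ hf ⟨a, b, c, d, k1, k2, k3, ⟨rfl, rfl⟩ | ⟨rfl, rfl⟩⟩
    · exact h2 a b c d he hf (lt _ _ k1) (lt _ _ k2) (lt _ _ k3)
    · exact (h2 a b c d hf he (lt _ _ k1) (lt _ _ k2) (lt _ _ k3)).symm⟩
  exact ⟨c, Sub.walk_of_seq c hc⟩

end Pool.Agent.Results.MP_e7c4c5_co.Outer
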