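import Pool.Agent.Lib.MP_e7c4c5_co.Qp.Main
import Pool.Agent.Lib.MP_e7c4c5_co.Qp.Pods
import Pool.Agent.Lib.MP_e7c4c5_co.Sub.Main

set_option autoImplicit false

namespace Pool.Agent.Results.MP_e7c4c5_co.QuasiPolylog

open Pool.Agent.Lib.MP_e7c4c5_co.Sub Pool.Agent.Lib.MP_e7c4c5_co.Qp

/-- Every `k`-gap-planar graph on `n` vertices has a nonrepetitive colouring with
`(k+1)^(C D) 2^(C D^3)` colours, where `D = ⌊log₂ ⌊log₂ n⌋⌋ + 1`. -/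
theorem result :
    ∃ C : ℕ, ∀ (k : ℕ) (V : Type) [Fintype V] (G : SimpleGraph V),
      (∃ (p : V → ℝ × ℝ) (γ : V → V → ℝ → ℝ × ℝ)
          (A : Sym2 V → Set ((ℝ × ℝ) × Sym2 V)),
        Function.Injective p ∧
        (∀ u v, G.Adj u v →
          ContinuousOn (γ u v) (Set.Icc 0 1) ∧
          Set.InjOn (γ u v) (Set.Icc 0 1) ∧
          γ u v 0 = p u ∧ γ u v 1 = p v ∧
          (∀ t ∈ Set.Icc (0:ℝ) 1, γ v u t = γ u v (1 - t)) ∧
          (∀ t ∈ Set.Ioo (0:ℝ) 1, ∀ w, γ u v t ≠ p w)) ∧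
        (∀ u v, G.Adj u v → (A s(u, v)).Finite ∧ (A s(u, v)).ncard ≤ k) ∧
        (∀ u v w z, G.Adj u v → G.Adj w z → s(u, v) ≠ s(w, z) →
          ∀ t₁ ∈ Set.Ioo (0:ℝ) 1, ∀ t₂ ∈ Set.Ioo (0:ℝ) 1,
            γ u v t₁ = γ w z t₂ →
              (γ u v t₁, s(w, z)) ∈ A s(u, v) ∨ (γ u v t₁, s(u, v)) ∈ A s(w, z))) →
      ∃ c : V → Fin ((k + 1) ^ (C * (Nat.log 2 (Nat.log 2 (Fintype.card V)) + 1)) *
          2 ^ (C * (Nat.log 2 (Nat.log 2 (Fintype.card V)) + 1) ^ 3)),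
        ∀ (a b : V) (P : G.Walk a b), P.IsPath →
          ∀ n : ℕ, 0 < n → P.support.length = 2 * n →
            (P.support.take n).map c ≠ (P.support.drop n).map c := by
  refine ⟨5058, fun k V _ G h => ?_⟩
  obtain ⟨c, hc⟩ := main_qp (Nat.succ_le_succ (Nat.zero_le k)) (sparse_of_drawing (k := k) h)
    (podSparse_of_drawing (k := k) h)
  exact ⟨c, walk_of_seq c hc⟩

end Pool.Agent.Results.MP_e7c4c5_co.QuasiPolylog
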